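import Mathlib
import Pool.Agent.helper42.BinEdge

/-!
# Depth of binomial edge ideals of graphs glued at one vertex

We disprove, over every field, the equality `d(G) + 4 = d(Ḡ₁) + d(Ḡ₂)` for graphs
`G = G₁ ∪ G₂` glued at one vertex `v` that satisfy conditions (i) and (ii).
The example has seven vertices: `G₁` is `K₅` minus an edge, with `v` one of its vertices of
degree four, and `G₂` is the path on three vertices with `v` in the middle.
-/

set_option autoImplicit false

open MvPolynomial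

namespace Pool.Agent.Results.MP_ada9af_al.GluedDepth

universe u

section Definitions

variable {V : Type}

/-- The binomial `x_i y_j - x_j y_i`, where `x_i` is the variable `X (Sum.inl i)` and `y_i` is
the variable `X (Sum.inr i)`. -/
noncomputable def edgeBinomial (K : Type u) [Field K] (i j : V) : MvPolynomial (V ⊕ V) K :=
  X (Sum.inl i) * X (Sum.inr j) - X (Sum.inl j) * X (Sum.inr i)

/-- The binomial edge ideal `J_H` of a graph `H`, in the polynomial ring in the variables
`x_j, y_j`, `j` a vertex of `H`. Exchanging `i` and `j` changes only the sign of a generator, so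
it does not matter in which order the ends of an edge are taken. -/
noncomputable def binomialEdgeIdeal (K : Type u) [Field K] (H : SimpleGraph V) :
    Ideal (MvPolynomial (V ⊕ V) K) :=
  Ideal.span {f | ∃ i j : V, H.Adj i j ∧ f = edgeBinomial K i j}

/-- The depth `d(H)` of the quotient of the polynomial ring by the binomial edge ideal of `H`:
the supremum of the lengths of regular sequences on the quotient that lie in the ideal generated
by all the variables. -/
noncomputable def d (K : Type u) [Field K] (H : SimpleGraph V) : ℕ∞ :=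
  ⨆ rs : {rs : List (MvPolynomial (V ⊕ V) K) // (∀ r ∈ rs, r ∈ idealOfVars (V ⊕ V) K) ∧
    RingTheory.Sequence.IsRegular (MvPolynomial (V ⊕ V) K ⧸ binomialEdgeIdeal K H) rs},
    (rs.1.length : ℕ∞)

/-- `u` is free in `H` when its neighbourhood spans a complete subgraph. -/
def IsFree (H : SimpleGraph V) (u : V) : Prop := H.IsClique (H.neighborSet u)

/-- `u` is a cut vertex of `H` when `H` without `u` has more components than `H`. -/
def IsCutVertex (H : SimpleGraph V) (u : V) : Prop :=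
  Nat.card H.ConnectedComponent < Nat.card (H.induce ({u}ᶜ : Set V)).ConnectedComponent

/-- `T` is a cutset of `H` when each `t ∈ T` is a cut vertex of `H` without `T \ {t}`. -/
def IsCutset (H : SimpleGraph V) (T : Set V) : Prop :=
  ∀ (t : V) (ht : t ∈ T), IsCutVertex (H.induce ((T \ {t})ᶜ : Set V)) ⟨t, by simp⟩

/-- Some cutset of `H` without `w` contains all the neighbours of `w` in `H`. -/
def NeighborsInCutset (H : SimpleGraph V) (w : V) : Prop :=
  ∃ T : Set ({w}ᶜ : Set V), IsCutset (H.induce ({w}ᶜ : Set V)) T ∧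
    ∀ (u : V) (hu : H.Adj w u), (⟨u, hu.ne'⟩ : ({w}ᶜ : Set V)) ∈ T

/-- `H` with a whisker at `w`: one new vertex `none`, joined to `w` only. -/
def whisker (H : SimpleGraph V) (w : V) : SimpleGraph (Option V) where
  Adj a b := (∃ i j, a = some i ∧ b = some j ∧ H.Adj i j) ∨ (a = none ∧ b = some w) ∨
    (a = some w ∧ b = none)
  symm := ⟨by
    rintro a b (⟨i, j, rfl, rfl, h⟩ | ⟨rfl, rfl⟩ | ⟨rfl, rfl⟩)
    · exact Or.inl ⟨j, i, rfl, rfl, h.symm⟩
    · exact Or.inr (Or.inr ⟨rfl, rfl⟩)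
    · exact Or.inr (Or.inl ⟨rfl, rfl⟩)⟩
  loopless := ⟨by
    rintro a (⟨i, j, rfl, h1, h⟩ | ⟨rfl, h⟩ | ⟨rfl, h⟩)
    · simp only [Option.some.injEq] at h1; subst h1; exact H.loopless.irrefl _ h
    · simp at h
    · simp at h⟩

/-- The connected graph `G` is the union of its subgraphs `G₁` and `G₂`, which share exactly
the vertex `v`. -/
structure GluedAt (G : SimpleGraph V) (G₁ G₂ : G.Subgraph) (v : V) : Prop where
  connected : G.Connected
  union : G₁ ⊔ G₂ = ⊤
  inter : G₁.verts ∩ G₂.verts = {v}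

end Definitions

open Pool.Agent.helper42.DepthTools Pool.Agent.helper42.BinEdge

section Bounds

variable {V : Type} {K : Type u} [Field K]

lemma binomialEdgeIdeal_eq (H : SimpleGraph V) :
    binomialEdgeIdeal K H = mI K {p : V × V | H.Adj p.1 p.2} := by
  rw [binomialEdgeIdeal, mI]
  congr 1
  ext f
  constructor
  · rintro ⟨i, j, h, rfl⟩
    exact ⟨(i, j), h, rfl⟩
  · rintro ⟨⟨i, j⟩, h, rfl⟩
    exact ⟨i, j, h, rfl⟩

lemma bei_le_m (H : SimpleGraph V) : binomialEdgeIdeal K H ≤ idealOfVars (V ⊕ V) K := by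
  rw [binomialEdgeIdeal_eq, mI_le_iff]
  intro i j _
  rw [mnr]
  exact Ideal.sub_mem _ (Ideal.mul_mem_right _ _ (X_mem_m _)) (Ideal.mul_mem_right _ _ (X_mem_m _))

lemma le_d_of_EV [Finite V] (H : SimpleGraph V) {n : ℕ}
    (h : EV (idealOfVars (V ⊕ V) K) (binomialEdgeIdeal K H) n) : (n : ℕ∞) ≤ d K H := by
  obtain ⟨rs, hlen, hmem, hreg⟩ := (extVan_iff_exists_isRegular
    (ModuleCat.of _ (MvPolynomial (V ⊕ V) K ⧸ binomialEdgeIdeal K H))
    (smul_top_lt idealOfVars_ne_top (bei_le_m H)) n).1 h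
  have := le_iSup (fun rs : {rs : List (MvPolynomial (V ⊕ V) K) //
    (∀ r ∈ rs, r ∈ idealOfVars (V ⊕ V) K) ∧
    RingTheory.Sequence.IsRegular (MvPolynomial (V ⊕ V) K ⧸ binomialEdgeIdeal K H) rs} =>
      (rs.1.length : ℕ∞)) ⟨rs, hmem, hreg⟩
  rw [← hlen]
  exact this

lemma d_le_of_EV [Finite V] (H : SimpleGraph V) {n : ℕ}
    (h : ∀ k, EV (idealOfVars (V ⊕ V) K) (binomialEdgeIdeal K H) k → k ≤ n) :
    d K H ≤ n := by
  refine iSup_le ?_
  rintro ⟨rs, hmem, hreg⟩
  have := h rs.length ((extVan_iff_exists_isRegular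
    (ModuleCat.of _ (MvPolynomial (V ⊕ V) K ⧸ binomialEdgeIdeal K H))
    (smul_top_lt idealOfVars_ne_top (bei_le_m H)) _).2 ⟨rs, rfl, hmem, hreg⟩)
  exact_mod_cast this

/-- Upper bound for the depth from an element whose annihilator is generated by variables. -/
lemma EV_le_of_ann [Finite V] {I : Ideal (MvPolynomial (V ⊕ V) K)}
    (hI : I ≤ idealOfVars (V ⊕ V) K) (A : Set (V ⊕ V)) (e : MvPolynomial (V ⊕ V) K)
    (he : ∀ r, r * e ∈ I ↔ r ∈ vI K A) {k : ℕ}
    (h : EV (idealOfVars (V ⊕ V) K) I k) : k ≤ Nat.card (Aᶜ : Set (V ⊕ V)) := by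
  obtain ⟨rs, hlen, hmem, hreg⟩ := (extVan_iff_exists_isRegular
    (ModuleCat.of _ (MvPolynomial (V ⊕ V) K ⧸ I))
    (smul_top_lt idealOfVars_ne_top hI) k).1 h
  have h1 := length_le_ringKrullDim (idealOfVars (V ⊕ V) K) rs
    (M := MvPolynomial (V ⊕ V) K ⧸ I) (Submodule.Quotient.mk e) (vI K A) (vI_isPrime A) ?_
    (vI_le_m A) hmem hreg
  · have h2 := h1.trans (ringKrullDim_le A)
    rw [hlen] at h2
    exact_mod_cast h2
  · intro r
    rw [← Submodule.Quotient.mk_smul, Submodule.Quotient.mk_eq_zero, smul_eq_mul]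
    exact he r

lemma mnr_notMem_vI {A : Set (V ⊕ V)} {a b : V} (hab : a ≠ b) (h1 : Sum.inl a ∉ A)
    (h2 : Sum.inr b ∉ A) : mnr K a b ∉ vI K A := by
  classical
  intro h
  let ev : MvPolynomial (V ⊕ V) K →+* K :=
    eval (fun s => if s = Sum.inl a ∨ s = Sum.inr b then 1 else 0)
  have hle : vI K A ≤ RingHom.ker ev := by
    rw [vI, Ideal.span_le]
    rintro _ ⟨s, hs, rfl⟩
    have h3 : s ≠ Sum.inl a := by rintro rfl; exact h1 hs
    have h4 : s ≠ Sum.inr b := by rintro rfl; exact h2 hs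
    simp [ev, h3, h4]
  have h5 := hle h
  rw [RingHom.mem_ker] at h5
  simp [ev, mnr, hab.symm] at h5

/-- First upper bound. -/
lemma d_le_first [Finite V] (H : SimpleGraph V) (T : Set V) (a b : V) (hab : a ≠ b)
    (ha : a ∉ T) (hb : b ∉ T) (hTa : ∀ t ∈ T, H.Adj t a) (hTb : ∀ t ∈ T, H.Adj t b)
    (hcov : ∀ i j, H.Adj i j → i ∈ T ∨ j ∈ T) :
    d K H ≤ (Nat.card (Tᶜ : Set V) + Nat.card (Tᶜ : Set V) : ℕ) := by
  let A : Set (V ⊕ V) := Sum.inl '' T ∪ Sum.inr '' T
  have hA1 : ∀ t ∈ T, (X (Sum.inl t) : MvPolynomial (V ⊕ V) K) ∈ vI K A := fun t ht =>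
    X_mem_vI (Or.inl ⟨t, ht, rfl⟩)
  have hA2 : ∀ t ∈ T, (X (Sum.inr t) : MvPolynomial (V ⊕ V) K) ∈ vI K A := fun t ht =>
    X_mem_vI (Or.inr ⟨t, ht, rfl⟩)
  have hJA : binomialEdgeIdeal K H ≤ vI K A := by
    rw [binomialEdgeIdeal_eq, mI_le_iff]
    intro i j hij
    rcases hcov i j hij with h | h
    · exact mnr_mem_of_left (hA1 i h) (hA2 i h)
    · exact mnr_mem_of_right (hA1 j h) (hA2 j h)
  have hcard : Nat.card (Aᶜ : Set (V ⊕ V)) = Nat.card (Tᶜ : Set V) + Nat.card (Tᶜ : Set V) := by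
    rw [← Nat.card_sum]
    apply Nat.card_congr
    refine (Equiv.subtypeSum (p := fun s : V ⊕ V => s ∈ Aᶜ)).trans (Equiv.sumCongr ?_ ?_)
    · exact Equiv.subtypeEquivRight (by intro v; simp [A])
    · exact Equiv.subtypeEquivRight (by intro v; simp [A])
  rw [← hcard]
  refine d_le_of_EV H fun k hk => EV_le_of_ann (bei_le_m H) A (mnr K a b) ?_ hk
  intro r
  constructor
  · intro h
    refine ((vI_isPrime A).mem_or_mem (hJA h)).resolve_right ?_
    apply mnr_notMem_vI hab
    · simp [A, ha]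
    · simp [A, hb]
  · intro h
    rw [binomialEdgeIdeal_eq]
    refine Submodule.span_induction ?_ ?_ ?_ ?_ h
    · rintro _ ⟨s, ⟨t, ht, rfl⟩ | ⟨t, ht, rfl⟩, rfl⟩
      · have e1 : mnr K t a ∈ mI K {p : V × V | H.Adj p.1 p.2} := mnr_mem (hTa t ht)
        have e2 : mnr K t b ∈ mI K {p : V × V | H.Adj p.1 p.2} := mnr_mem (hTb t ht)
        have : (X (Sum.inl t) : MvPolynomial (V ⊕ V) K) * mnr K a b =
            X (Sum.inl a) * mnr K t b - X (Sum.inl b) * mnr K t a := by
          simp only [mnr]; ring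
        rw [this]
        exact Ideal.sub_mem _ (Ideal.mul_mem_left _ _ e2) (Ideal.mul_mem_left _ _ e1)
      · have e1 : mnr K t a ∈ mI K {p : V × V | H.Adj p.1 p.2} := mnr_mem (hTa t ht)
        have e2 : mnr K t b ∈ mI K {p : V × V | H.Adj p.1 p.2} := mnr_mem (hTb t ht)
        have : (X (Sum.inr t) : MvPolynomial (V ⊕ V) K) * mnr K a b =
            X (Sum.inr a) * mnr K t b - X (Sum.inr b) * mnr K t a := by
          simp only [mnr]; ring
        rw [this]
        exact Ideal.sub_mem _ (Ideal.mul_mem_left _ _ e2) (Ideal.mul_mem_left _ _ e1)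
    · rw [zero_mul]; exact Ideal.zero_mem _
    · intro x y _ _ hx hy; rw [add_mul]; exact Ideal.add_mem _ hx hy
    · intro x y _ hy; rw [smul_eq_mul, mul_assoc]; exact Ideal.mul_mem_left _ _ hy

/-- Second upper bound, for stars. -/
lemma d_le_star [Fintype V] [DecidableEq V] (H : SimpleGraph V) (c l : V) (hcl : c ≠ l)
    (hH : ∀ i j, H.Adj i j ↔ (i = c ∧ j ≠ c) ∨ (j = c ∧ i ≠ c)) :
    d K H ≤ (Fintype.card V + 1 : ℕ) := by
  set J := binomialEdgeIdeal K H with hJ
  have hdec : J = (vI K (∅ : Set (V ⊕ V)) ⊔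
      mI K (((Finset.univ : Finset V) : Set V) ×ˢ ((Finset.univ : Finset V) : Set V))) ⊓
      (vI K (insert (Sum.inl c) (insert (Sum.inr c) (∅ : Set (V ⊕ V)))) ⊔
        mI K (∅ : Set (V × V))) := by
    have h0 : J = vI K (∅ : Set (V ⊕ V)) ⊔
        mI K ({p : V × V | H.Adj p.1 p.2} ∪ {p : V × V | p.1 = p.2}) := by
      rw [hJ, binomialEdgeIdeal_eq]
      apply le_antisymm
      · exact le_sup_of_le_right (mI_mono Set.subset_union_left)
      · refine sup_le ?_ ?_
        · rw [vI_le_iff]; intro s hs; exact absurd hs (Set.notMem_empty s)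
        · rw [mI_le_iff]
          rintro i j (h | h)
          · exact mnr_mem h
          · simp only [Set.mem_ofPred_eq] at h; subst h; rw [mnr_self]; exact Ideal.zero_mem _
    rw [h0]
    have h00 : mI K ({p : V × V | H.Adj p.1 p.2} ∪ {p : V × V | p.1 = p.2}) =
        mI K ({p : V × V | H.Adj p.1 p.2} ∪ {(c, c)}) := by
      apply le_antisymm
      · rw [mI_le_iff]
        rintro i j (h | h)
        · exact mnr_mem (Or.inl h)
        · simp only [Set.mem_ofPred_eq] at h; subst h; rw [mnr_self]; exact Ideal.zero_mem _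
      · refine mI_mono ?_
        rintro ⟨i, j⟩ (h | h)
        · exact Or.inl h
        · simp only [Set.mem_singleton_iff, Prod.mk.injEq] at h
          exact Or.inr (h.1.trans h.2.symm)
    rw [h00]
    apply ohtani
    · intro p _; simp
    · rintro ⟨i, j⟩ (h | h)
      · have := (hH i j).1 h
        rcases this with ⟨h, -⟩ | ⟨h, -⟩
        · exact Or.inl h
        · exact Or.inr (Or.inl h)
      · simp only [Set.mem_singleton_iff, Prod.mk.injEq] at h
        exact Or.inl h.1
    · intro p hp; exact absurd hp (Set.notMem_empty p)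
    · intro p hp; exact absurd hp (Set.notMem_empty p)
    · rintro ⟨i, j⟩ -
      by_cases hi : i = c
      · subst hi
        by_cases hj : j = i
        · subst hj; exact Or.inl (Or.inr rfl)
        · exact Or.inl (Or.inl ((hH _ _).2 (Or.inl ⟨rfl, hj⟩)))
      · by_cases hj : j = c
        · subst hj
          exact Or.inl (Or.inl ((hH _ _).2 (Or.inr ⟨rfl, hi⟩)))
        · exact Or.inr ⟨hi, hj, Or.inl ((hH _ _).2 (Or.inl ⟨rfl, hi⟩)),
            Or.inl ((hH _ _).2 (Or.inl ⟨rfl, hj⟩))⟩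
  have hreg : ∀ f, X (Sum.inl l) * f ∈ J → f ∈ J := by
    intro f hf
    rw [hdec] at hf ⊢
    obtain ⟨hf1, hf2⟩ := hf
    refine ⟨regular_aux Finset.univ (by simp) (by simp) hf1, ?_⟩
    have he : mI K (∅ : Set (V × V)) = ⊥ := by simp [mI]
    rw [he, sup_bot_eq] at hf2 ⊢
    refine ((vI_isPrime _).mem_or_mem hf2).resolve_left ?_
    rw [X_mem_vI_iff]
    simp [hcl.symm]
  have hadj : ∀ i, i ≠ c → mnr K c i ∈ J := by
    intro i hi
    rw [hJ, binomialEdgeIdeal_eq]
    exact mnr_mem ((hH c i).2 (Or.inl ⟨rfl, hi⟩))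
  refine d_le_of_EV H fun k hk => ?_
  rcases k with _ | k
  · omega
  have hk' : EV (idealOfVars (V ⊕ V) K) (J ⊔ Ideal.span {X (Sum.inl l)}) k :=
    EV.quot_regular hreg hk
  have hle : J ⊔ Ideal.span {X (Sum.inl l)} ≤ idealOfVars (V ⊕ V) K :=
    sup_le (bei_le_m H) ((Ideal.span_singleton_le_iff_mem _).2 (X_mem_m _))
  have hxl : (X (Sum.inl l) : MvPolynomial (V ⊕ V) K) ∈ J ⊔ Ideal.span {X (Sum.inl l)} :=
    Ideal.mem_sup_right (Ideal.mem_span_singleton_self _)
  have hle2 : J ⊔ Ideal.span {X (Sum.inl l)} ≤ vI K (Set.range (Sum.inl : V → V ⊕ V)) := by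
    refine sup_le ?_ ?_
    · rw [hJ, binomialEdgeIdeal_eq, mI_le_iff]
      intro i j _
      exact mnr_mem_of_inl (X_mem_vI ⟨i, rfl⟩) (X_mem_vI ⟨j, rfl⟩)
    · rw [Ideal.span_singleton_le_iff_mem]
      exact X_mem_vI ⟨l, rfl⟩
  have hbound := EV_le_of_ann hle (Set.range (Sum.inl : V → V ⊕ V))
    (X (Sum.inr l) * X (Sum.inr c)) ?_ hk'
  · have hcard : Nat.card ((Set.range (Sum.inl : V → V ⊕ V))ᶜ : Set (V ⊕ V)) =
        Fintype.card V := by
      rw [← Nat.card_eq_fintype_card]
      apply Nat.card_congr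
      refine (Equiv.setCongr (t := Set.range (Sum.inr : V → V ⊕ V)) ?_).trans
        (Equiv.ofInjective _ Sum.inr_injective).symm
      exact Set.isCompl_range_inl_range_inr.compl_eq
    rw [hcard] at hbound
    omega
  · intro r
    constructor
    · intro h
      have h1 := hle2 h
      rw [← mul_assoc] at h1
      have hn : ∀ v : V, (X (Sum.inr v) : MvPolynomial (V ⊕ V) K) ∉
          vI K (Set.range (Sum.inl : V → V ⊕ V)) := by
        intro v; rw [X_mem_vI_iff]; simp
      have h2 := ((vI_isPrime _).mem_or_mem h1).resolve_right (hn c)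
      exact ((vI_isPrime _).mem_or_mem h2).resolve_right (hn l)
    · intro h
      refine Submodule.span_induction ?_ ?_ ?_ ?_ h
      · rintro _ ⟨_, ⟨i, rfl⟩, rfl⟩
        have hc1 : (X (Sum.inl c) : MvPolynomial (V ⊕ V) K) * X (Sum.inr l) ∈
            J ⊔ Ideal.span {X (Sum.inl l)} := by
          have : (X (Sum.inl c) : MvPolynomial (V ⊕ V) K) * X (Sum.inr l) =
              mnr K c l + X (Sum.inl l) * X (Sum.inr c) := by rw [mnr]; ring
          rw [this]
          exact Ideal.add_mem _ (Ideal.mem_sup_left (hadj l hcl.symm))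
            (Ideal.mul_mem_right _ _ hxl)
        by_cases hi : i = c
        · subst hi
          rw [← mul_assoc]
          exact Ideal.mul_mem_right _ _ hc1
        · have : (X (Sum.inl i) : MvPolynomial (V ⊕ V) K) * (X (Sum.inr l) * X (Sum.inr c)) =
              (X (Sum.inl c) * X (Sum.inr l)) * X (Sum.inr i) - X (Sum.inr l) * mnr K c i := by
            rw [mnr]; ring
          rw [this]
          exact Ideal.sub_mem _ (Ideal.mul_mem_right _ _ hc1)
            (Ideal.mul_mem_left _ _ (Ideal.mem_sup_left (hadj i hi)))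
      · rw [zero_mul]; exact Ideal.zero_mem _
      · intro x y _ _ hx hy; rw [add_mul]; exact Ideal.add_mem _ hx hy
      · intro x y _ hy; rw [smul_eq_mul, mul_assoc]; exact Ideal.mul_mem_left _ _ hy

/-- Lower bound through Ohtani's decomposition at `v`, when the neighbourhood of `v` together
with `v` is `W`. -/
lemma step [Fintype V] [DecidableEq V] {A : Finset (V ⊕ V)} {W : Finset V}
    {E E₂ : Set (V × V)} {v : V} (hv : v ∈ W) (hW : 2 ≤ W.card)
    (h1 : E ⊆ (W : Set V) ×ˢ (W : Set V)) (h2 : ∀ p ∈ E, p.1 = v ∨ p.2 = v ∨ p ∈ E₂)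
    (h3 : E₂ ⊆ E) (h4 : ∀ p ∈ E₂, p.1 ≠ v ∧ p.2 ≠ v)
    (h5 : ∀ p ∈ (W : Set V) ×ˢ (W : Set V), p ∈ E ∨
      (p.1 ≠ v ∧ p.2 ≠ v ∧ (v, p.1) ∈ E ∧ (v, p.2) ∈ E))
    (hA : ∀ w ∈ W, Sum.inl w ∉ A ∧ Sum.inr w ∉ A) {n : ℕ}
    (hn : n + 1 + A.card + W.card ≤ Fintype.card (V ⊕ V) + 1)
    (hE₂ : EV (idealOfVars (V ⊕ V) K)
      (vI K (((insert (Sum.inl v) (insert (Sum.inr v) A) : Finset (V ⊕ V))) : Set (V ⊕ V)) ⊔
        mI K E₂) (n + 1)) :
    EV (idealOfVars (V ⊕ V) K) (vI K (A : Set (V ⊕ V)) ⊔ mI K E) (n + 1) := by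
  refine EV.congr (ohtani (A := (A : Set (V ⊕ V))) h1 h2 h3 h4 h5).symm ?_
  have hc := EV_complete (K := K) (W.card - 1) W A
    (Fintype.card (V ⊕ V) + 1 - A.card - W.card) (by omega) hA (by omega)
  refine EV.inf (hc.mono (by omega)) ?_ ?_
  · rwa [Finset.coe_insert, Finset.coe_insert] at hE₂
  · have hcard : (insert (Sum.inl v) (insert (Sum.inr v) A)).card = A.card + 2 := by
      rw [Finset.card_insert_of_notMem, Finset.card_insert_of_notMem (hA v hv).2]
      simp [(hA v hv).1]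
    have hcW := Finset.card_erase_of_mem hv
    have hc2 := EV_complete (K := K) (W.card - 2) (W.erase v)
      (insert (Sum.inl v) (insert (Sum.inr v) A))
      (Fintype.card (V ⊕ V) - A.card - W.card) (by omega) (by
        intro w hw
        obtain ⟨hwv, hw⟩ := Finset.mem_erase.1 hw
        simp [hwv, (hA w hw).1, (hA w hw).2]) (by omega)
    refine EV.congr ?_ (hc2.mono (show n ≤ _ by omega))
    rw [Finset.coe_insert, Finset.coe_insert]
    apply le_antisymm
    · refine sup_le ?_ ?_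
      · exact le_sup_of_le_right le_sup_left
      · refine le_sup_of_le_left (le_sup_of_le_right (mI_mono ?_))
        rintro ⟨i, j⟩ ⟨hi, hj⟩
        exact ⟨Finset.mem_of_mem_erase hi, Finset.mem_of_mem_erase hj⟩
    · refine sup_le (sup_le ?_ ?_) (sup_le le_sup_left ?_)
      · exact le_sup_of_le_left (vI_mono ((Set.subset_insert _ _).trans (Set.subset_insert _ _)))
      · rw [mI_le_iff]
        rintro i j ⟨hi, hj⟩
        by_cases hiv : i = v
        · subst hiv
          exact Ideal.mem_sup_left (mnr_mem_of_left (X_mem_vI (by simp)) (X_mem_vI (by simp)))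
        · by_cases hjv : j = v
          · subst hjv
            exact Ideal.mem_sup_left (mnr_mem_of_right (X_mem_vI (by simp)) (X_mem_vI (by simp)))
          · exact Ideal.mem_sup_right (mnr_mem
              ⟨by simpa [hiv] using hi, by simpa [hjv] using hj⟩)
      · refine le_sup_of_le_right (mI_mono ?_)
        rintro ⟨i, j⟩ hij
        have h6 := h1 (h3 hij)
        have h7 := h4 _ hij
        exact ⟨by simpa [h7.1] using h6.1, by simpa [h7.2] using h6.2⟩

end Bounds

section Example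

/-- Adjacency in the graph on seven vertices: `0` is joined to all other vertices, and
`1, 2, 3, 4` span a complete graph without the edge `34`. -/
def adj7 (i j : Fin 7) : Bool :=
  decide (i ≠ j) && (decide (i = 0) || decide (j = 0) ||
    (decide (i ≤ 4) && decide (j ≤ 4) && !(decide (i = 3) && decide (j = 4)) &&
      !(decide (i = 4) && decide (j = 3))))

/-- The graph on seven vertices of the counterexample. -/
def G7 : SimpleGraph (Fin 7) where
  Adj i j := adj7 i j = true
  symm := ⟨by decide⟩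
  loopless := ⟨by decide⟩

instance : DecidableRel G7.Adj := fun i j => inferInstanceAs (Decidable (adj7 i j = true))

/-- `K₅` minus an edge. -/
def A7 : G7.Subgraph := (⊤ : G7.Subgraph).induce {i | i ≤ 4}

/-- The path on three vertices. -/
def B7 : G7.Subgraph := (⊤ : G7.Subgraph).induce {i | i = 0 ∨ 5 ≤ i}

/-- Pairs used for the lower bound. -/
def E0 : Finset (Fin 7 × Fin 7) :=
  Finset.univ.filter fun p => adj7 p.1 p.2 = true ∨ (p.1 = p.2 ∧ p.1 ≤ 4)

/-- Pairs used for the lower bound. -/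
def E1 : Finset (Fin 7 × Fin 7) :=
  E0.filter fun p => 1 ≤ p.1 ∧ p.1 ≤ 4 ∧ 1 ≤ p.2 ∧ p.2 ≤ 4

/-- Pairs used for the lower bound. -/
def E2 : Finset (Fin 7 × Fin 7) :=
  E0.filter fun p => 2 ≤ p.1 ∧ p.1 ≤ 4 ∧ 2 ≤ p.2 ∧ p.2 ≤ 4

/-- Pairs used for the lower bound. -/
def E3 : Finset (Fin 7 × Fin 7) := {(3, 3), (4, 4)}

variable (K : Type u) [Field K]

lemma eight_le_d : (8 : ℕ∞) ≤ d K G7 := by
  have h2 : EV (idealOfVars (Fin 7 ⊕ Fin 7) K)
      (vI K ((({Sum.inl 1, Sum.inr 1, Sum.inl 0, Sum.inr 0} : Finset (Fin 7 ⊕ Fin 7))) :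
        Set (Fin 7 ⊕ Fin 7)) ⊔ mI K (E2 : Set (Fin 7 × Fin 7))) (7 + 1) := by
    refine step (W := {2, 3, 4}) (E₂ := (E3 : Set (Fin 7 × Fin 7))) (v := 2) (by decide)
      (by decide) ?_ ?_ ?_ ?_ ?_ (by decide) (by decide) ?_
    · rw [← Finset.coe_product, Finset.coe_subset]; decide
    · simp only [Finset.mem_coe]; decide
    · rw [Finset.coe_subset]; decide
    · simp only [Finset.mem_coe]; decide
    · rw [← Finset.coe_product]; simp only [Finset.mem_coe]; decide
    · have he : mI K (E3 : Set (Fin 7 × Fin 7)) = ⊥ := by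
        rw [eq_bot_iff, mI_le_iff]
        intro i j hij
        have : i = j := by
          simp only [E3, Finset.coe_insert, Finset.coe_singleton, Set.mem_insert_iff,
            Set.mem_singleton_iff, Prod.mk.injEq] at hij
          rcases hij with ⟨rfl, rfl⟩ | ⟨rfl, rfl⟩ <;> rfl
        rw [this, mnr_self]
        exact Ideal.zero_mem _
      rw [he, sup_bot_eq]
      exact EV_vI _ _ (by decide)
  have h1 : EV (idealOfVars (Fin 7 ⊕ Fin 7) K)
      (vI K ((({Sum.inl 0, Sum.inr 0} : Finset (Fin 7 ⊕ Fin 7))) :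
        Set (Fin 7 ⊕ Fin 7)) ⊔ mI K (E1 : Set (Fin 7 × Fin 7))) (7 + 1) := by
    refine step (W := {1, 2, 3, 4}) (E₂ := (E2 : Set (Fin 7 × Fin 7))) (v := 1) (by decide)
      (by decide) ?_ ?_ ?_ ?_ ?_ (by decide) (by decide) h2
    · rw [← Finset.coe_product, Finset.coe_subset]; decide
    · simp only [Finset.mem_coe]; decide
    · rw [Finset.coe_subset]; decide
    · simp only [Finset.mem_coe]; decide
    · rw [← Finset.coe_product]; simp only [Finset.mem_coe]; decide
  have h0 : EV (idealOfVars (Fin 7 ⊕ Fin 7) K)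
      (vI K (((∅ : Finset (Fin 7 ⊕ Fin 7))) :
        Set (Fin 7 ⊕ Fin 7)) ⊔ mI K (E0 : Set (Fin 7 × Fin 7))) (7 + 1) := by
    refine step (W := Finset.univ) (E₂ := (E1 : Set (Fin 7 × Fin 7))) (v := 0) (by decide)
      (by decide) ?_ ?_ ?_ ?_ ?_ (by decide) (by decide) h1
    · rw [← Finset.coe_product, Finset.coe_subset]; decide
    · simp only [Finset.mem_coe]; decide
    · rw [Finset.coe_subset]; decide
    · simp only [Finset.mem_coe]; decide
    · rw [← Finset.coe_product]; simp only [Finset.mem_coe]; decide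
  have hJ : binomialEdgeIdeal K G7 = vI K (((∅ : Finset (Fin 7 ⊕ Fin 7))) :
        Set (Fin 7 ⊕ Fin 7)) ⊔ mI K (E0 : Set (Fin 7 × Fin 7)) := by
    rw [binomialEdgeIdeal_eq]
    apply le_antisymm
    · refine le_sup_of_le_right (mI_mono ?_)
      rintro ⟨i, j⟩ h
      rw [Finset.mem_coe, E0, Finset.mem_filter]
      exact ⟨Finset.mem_univ _, Or.inl h⟩
    · refine sup_le ?_ ?_
      · rw [vI_le_iff]; intro s hs; simp at hs
      · rw [mI_le_iff]
        intro i j h
        rw [Finset.mem_coe, E0, Finset.mem_filter] at h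
        rcases h.2 with h | h
        · exact mnr_mem h
        · have : i = j := h.1
          rw [this, mnr_self]; exact Ideal.zero_mem _
  have := le_d_of_EV (K := K) G7 (n := 8) (EV.congr hJ.symm h0)
  exact_mod_cast this

lemma mem_A7 {i : Fin 7} : i ∈ A7.verts ↔ i ≤ 4 := Iff.rfl

lemma mem_B7 {i : Fin 7} : i ∈ B7.verts ↔ i = 0 ∨ 5 ≤ i := Iff.rfl

lemma A7_adj (x y : A7.verts) : A7.coe.Adj x y ↔ adj7 x.1 y.1 = true := by
  change A7.Adj x.1 y.1 ↔ _
  constructor
  · rintro ⟨-, -, h⟩; exact h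
  · intro h; exact ⟨x.2, y.2, h⟩

lemma B7_adj (x y : B7.verts) : B7.coe.Adj x y ↔ adj7 x.1 y.1 = true := by
  change B7.Adj x.1 y.1 ↔ _
  constructor
  · rintro ⟨-, -, h⟩; exact h
  · intro h; exact ⟨x.2, y.2, h⟩

/-- The vertex `0` in the first part. -/
abbrev a0 : A7.verts := ⟨0, mem_A7.2 (by decide)⟩

/-- The vertex `0` in the second part. -/
abbrev b0 : B7.verts := ⟨0, mem_B7.2 (by decide)⟩

lemma d_A7_le : d K (whisker A7.coe a0) ≤ 6 := by
  let T : Set (Option A7.verts) := {s | ∃ t : A7.verts, t.1 ≤ 2 ∧ s = some t}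
  let a : Option A7.verts := some ⟨3, mem_A7.2 (by decide)⟩
  let b : Option A7.verts := some ⟨4, mem_A7.2 (by decide)⟩
  have hab : a ≠ b := by simp [a, b]
  have ha : a ∉ T := by
    rintro ⟨t, ht, h⟩
    simp only [a, Option.some.injEq] at h
    rw [← h] at ht
    exact absurd ht (by decide)
  have hb : b ∉ T := by
    rintro ⟨t, ht, h⟩
    simp only [b, Option.some.injEq] at h
    rw [← h] at ht
    exact absurd ht (by decide)
  have hTa : ∀ t ∈ T, (whisker A7.coe a0).Adj t a := by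
    rintro _ ⟨t, ht, rfl⟩
    refine Or.inl ⟨t, _, rfl, rfl, ?_⟩
    rw [A7_adj]
    exact (by decide : ∀ z : Fin 7, z ≤ 2 → adj7 z 3 = true) t.1 ht
  have hTb : ∀ t ∈ T, (whisker A7.coe a0).Adj t b := by
    rintro _ ⟨t, ht, rfl⟩
    refine Or.inl ⟨t, _, rfl, rfl, ?_⟩
    rw [A7_adj]
    exact (by decide : ∀ z : Fin 7, z ≤ 2 → adj7 z 4 = true) t.1 ht
  have key : ∀ i j : Fin 7, i ≤ 4 → j ≤ 4 → adj7 i j = true → i ≤ 2 ∨ j ≤ 2 := by decide
  have hcov : ∀ i j, (whisker A7.coe a0).Adj i j → i ∈ T ∨ j ∈ T := by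
    rintro i j (⟨x, y, rfl, rfl, h⟩ | ⟨rfl, rfl⟩ | ⟨rfl, rfl⟩)
    · rw [A7_adj] at h
      rcases key x.1 y.1 x.2 y.2 h with h' | h'
      · exact Or.inl ⟨x, h', rfl⟩
      · exact Or.inr ⟨y, h', rfl⟩
    · exact Or.inr ⟨a0, by decide, rfl⟩
    · exact Or.inl ⟨a0, by decide, rfl⟩
  have hcard : Nat.card (Tᶜ : Set (Option A7.verts)) ≤ 3 := by
    have hsub : (Tᶜ : Set (Option A7.verts)) ⊆ {none, a, b} := by
      intro s hs
      rcases s with _ | x
      · exact Or.inl rfl
      · right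
        have h1 : ¬ x.1 ≤ 2 := fun h => hs ⟨x, h, rfl⟩
        have h2 : x.1 = 3 ∨ x.1 = 4 := by
          have h3 := x.2
          rw [mem_A7] at h3
          revert h1 h3
          generalize x.1 = z
          revert z
          decide
        rcases h2 with h2 | h2
        · exact Or.inl (congrArg some (Subtype.ext h2))
        · exact Or.inr (congrArg some (Subtype.ext h2))
    rw [Nat.card_coe_set_eq]
    refine (Set.ncard_le_ncard hsub (Set.toFinite _)).trans ?_
    refine (Set.ncard_insert_le _ _).trans ?_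
    have := Set.ncard_insert_le a ({b} : Set (Option A7.verts))
    rw [Set.ncard_singleton] at this
    omega
  have h := d_le_first (K := K) (whisker A7.coe a0) T a b hab ha hb hTa hTb hcov
  refine h.trans ?_
  have : (Nat.card (Tᶜ : Set (Option A7.verts)) + Nat.card (Tᶜ : Set (Option A7.verts)) : ℕ) ≤ 6 :=
    by omega
  exact_mod_cast this

lemma d_B7_le : d K (whisker B7.coe b0) ≤ 5 := by
  classical
  let _ : Fintype (Option B7.verts) := Fintype.ofFinite _
  have hB : B7.verts = (({0, 5, 6} : Finset (Fin 7)) : Set (Fin 7)) := by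
    ext i
    rw [mem_B7, Finset.mem_coe]
    revert i
    decide
  have hcard : Fintype.card (Option B7.verts) = 4 := by
    rw [← Nat.card_eq_fintype_card, Finite.card_option, Nat.card_coe_set_eq, hB,
      Set.ncard_coe_finset]
    rfl
  have key : ∀ i j : Fin 7, (i = 0 ∨ 5 ≤ i) → (j = 0 ∨ 5 ≤ j) →
      (adj7 i j = true ↔ (i = 0 ∧ j ≠ 0) ∨ (j = 0 ∧ i ≠ 0)) := by decide
  have hH : ∀ i j : Option B7.verts, (whisker B7.coe b0).Adj i j ↔
      (i = some b0 ∧ j ≠ some b0) ∨ (j = some b0 ∧ i ≠ some b0) := by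
    intro i j
    rcases i with _ | x <;> rcases j with _ | y
    · simp [whisker]
    · simp [whisker]
    · simp [whisker]
    · have h1 : (whisker B7.coe b0).Adj (some x) (some y) ↔ adj7 x.1 y.1 = true := by
        rw [← B7_adj]
        constructor
        · rintro (⟨i, j, h1, h2, h⟩ | ⟨h, _⟩ | ⟨_, h⟩)
          · rw [Option.some.injEq] at h1 h2
            rw [h1, h2]; exact h
          · simp at h
          · simp at h
        · intro h
          exact Or.inl ⟨x, y, rfl, rfl, h⟩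
      have h2 : ∀ z : B7.verts, (some z : Option B7.verts) = some b0 ↔ z.1 = 0 := by
        intro z
        rw [Option.some.injEq, Subtype.ext_iff]
      rw [h1, ne_eq, ne_eq, h2, h2]
      exact key x.1 y.1 x.2 y.2
  have h := d_le_star (K := K) (whisker B7.coe b0) (some b0) none (by simp) hH
  rw [hcard] at h
  exact_mod_cast h

lemma not_neighborsInCutset {V : Type} (H : SimpleGraph V) (w u₀ : V)
    (hw : ∀ u, u ≠ w → H.Adj w u) (hu₀ : u₀ ≠ w) : ¬ NeighborsInCutset H w := by
  rintro ⟨T, hT, hN⟩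
  have hall : ∀ x : ({w}ᶜ : Set V), x ∈ T := fun x => hN x.1 (hw x.1 x.2)
  have h := hT ⟨u₀, hu₀⟩ (hall _)
  unfold IsCutVertex at h
  have hempty : IsEmpty ((({⟨⟨u₀, hu₀⟩, by simp⟩} :
      Set ((T \ {⟨u₀, hu₀⟩})ᶜ : Set ({w}ᶜ : Set V)))ᶜ :
        Set ((T \ {⟨u₀, hu₀⟩})ᶜ : Set ({w}ᶜ : Set V)))) := by
    refine ⟨?_⟩
    rintro ⟨⟨x, hx⟩, hx'⟩
    apply hx'
    rw [Set.mem_singleton_iff, Subtype.mk.injEq]
    by_contra hne
    exact hx ⟨hall x, hne⟩
  have h2 : Nat.card ((((H.induce ({w}ᶜ : Set V)).induce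
      ((T \ {⟨u₀, hu₀⟩})ᶜ : Set ({w}ᶜ : Set V))).induce
        ({⟨⟨u₀, hu₀⟩, by simp⟩}ᶜ : Set ((T \ {⟨u₀, hu₀⟩})ᶜ : Set ({w}ᶜ : Set V)))).ConnectedComponent)
        = 0 := by
    have : IsEmpty ((((H.induce ({w}ᶜ : Set V)).induce
      ((T \ {⟨u₀, hu₀⟩})ᶜ : Set ({w}ᶜ : Set V))).induce
        ({⟨⟨u₀, hu₀⟩, by simp⟩}ᶜ : Set ((T \ {⟨u₀, hu₀⟩})ᶜ : Set ({w}ᶜ : Set V)))).ConnectedComponent) :=
      ⟨fun c => by
        induction c using SimpleGraph.ConnectedComponent.ind with
        | h v => exact hempty.false v⟩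
    exact Nat.card_of_isEmpty
  rw [h2] at h
  exact absurd h (by omega)

lemma glued : GluedAt G7 A7 B7 0 where
  connected := by
    rw [SimpleGraph.connected_iff_exists_forall_reachable]
    refine ⟨0, fun w => ?_⟩
    by_cases hw : w = 0
    · rw [hw]
    · apply SimpleGraph.Adj.reachable
      change adj7 0 w = true
      revert w
      decide
  union := by
    apply SimpleGraph.Subgraph.ext
    · ext i
      have : (i ≤ 4 ∨ (i = 0 ∨ 5 ≤ i)) := by revert i; decide
      simp only [SimpleGraph.Subgraph.verts_sup, Set.mem_union, mem_A7, mem_B7,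
        SimpleGraph.Subgraph.verts_top, Set.mem_univ, iff_true]
      exact this
    · funext i j
      have h : ∀ i j : Fin 7, adj7 i j = true → (i ≤ 4 ∧ j ≤ 4) ∨
          ((i = 0 ∨ 5 ≤ i) ∧ (j = 0 ∨ 5 ≤ j)) := by decide
      apply propext
      constructor
      · rintro (⟨-, -, h⟩ | ⟨-, -, h⟩) <;> exact h
      · intro hij
        rcases h i j hij with ⟨h1, h2⟩ | ⟨h1, h2⟩
        · exact Or.inl ⟨h1, h2, hij⟩
        · exact Or.inr ⟨h1, h2, hij⟩
  inter := by
    ext i
    have : (i ≤ 4 ∧ (i = 0 ∨ 5 ≤ i)) ↔ i = 0 := by revert i; decide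
    simp only [Set.mem_inter_iff, mem_A7, mem_B7, Set.mem_singleton_iff]
    exact this

end Example

/-- **Main theorem.** Over every field `K` there is a connected graph `G`, the union of two
subgraphs `G₁`, `G₂` sharing exactly one vertex `v`, that satisfies both conditions (i) and (ii)
but for which `d(G) + 4 = d(Ḡ₁) + d(Ḡ₂)` fails. -/
theorem result (K : Type u) [Field K] :
    ∃ (V : Type) (_ : Finite V) (G : SimpleGraph V) (G₁ G₂ : G.Subgraph) (v : V)
      (h₁ : v ∈ G₁.verts) (h₂ : v ∈ G₂.verts),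
      GluedAt G G₁ G₂ v ∧
      (NeighborsInCutset G₁.coe ⟨v, h₁⟩ → IsFree G₂.coe ⟨v, h₂⟩) ∧
      (NeighborsInCutset G₂.coe ⟨v, h₂⟩ → IsFree G₁.coe ⟨v, h₁⟩) ∧
      d K G + 4 ≠ d K (whisker G₁.coe ⟨v, h₁⟩) + d K (whisker G₂.coe ⟨v, h₂⟩) := by
  refine ⟨Fin 7, inferInstance, G7, A7, B7, 0, a0.2, b0.2, glued, ?_, ?_, ?_⟩
  · intro h
    refine absurd h (not_neighborsInCutset A7.coe a0 ⟨1, mem_A7.2 (by decide)⟩ ?_ ?_)
    · intro u hu
      rw [A7_adj]
      have h2 : u.1 ≠ 0 := fun h => hu (Subtype.ext h)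
      change adj7 0 u.1 = true
      revert h2
      generalize u.1 = z
      revert z
      decide
    · intro h
      have := congrArg Subtype.val h
      exact absurd this (by decide)
  · intro h
    refine absurd h (not_neighborsInCutset B7.coe b0 ⟨5, mem_B7.2 (by decide)⟩ ?_ ?_)
    · intro u hu
      rw [B7_adj]
      have h2 : u.1 ≠ 0 := fun h => hu (Subtype.ext h)
      change adj7 0 u.1 = true
      revert h2
      generalize u.1 = z
      revert z
      decide
    · intro h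
      have := congrArg Subtype.val h
      exact absurd this (by decide)
  · intro h
    have h1 : (8 : ℕ∞) + 4 ≤ 6 + 5 := by
      calc (8 : ℕ∞) + 4 ≤ d K G7 + 4 := by gcongr; exact eight_le_d K
        _ = _ := h
        _ ≤ 6 + 5 := by
          gcongr
          · exact d_A7_le K
          · exact d_B7_le K
    exact absurd h1 (by decide)

end Pool.Agent.Results.MP_ada9af_al.GluedDepth
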